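import Pool.Agent.W102.TD.Defs

/-! Project TD: polynomials of low weight which vanish on the support (or off the support) of the
function of Tu and Deng are zero. -/

set_option autoImplicit false

namespace Pool.Agent.W135.TD

open Finset Pool.Agent.W102.TD

/-- the second exponent -/
def jt (q t i : ℕ) : ℕ := if i ≤ t then t - i else t + q - i

lemma jt_iff {q t i j : ℕ} (ht : t < q) (hi : i < q) (hj : j < q) :
    (i + j) % q = t ↔ j = jt q t i := by
  unfold jt
  rcases lt_or_ge (i + j) q with h | h
  · rw [Nat.mod_eq_of_lt h]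
    split_ifs <;> omega
  · rw [Nat.mod_eq_sub_mod h, Nat.mod_eq_of_lt (by omega)]
    split_ifs <;> omega

lemma jt_lt {q t i : ℕ} (ht : t < q) (hi : i < q) : jt q t i < q := by
  unfold jt; split_ifs <;> omega

lemma wt_compl {m i : ℕ} (hi : i < 2 ^ m) : wt m i + wt m (2 ^ m - 1 - i) = m := by
  unfold wt
  have h1 : (Finset.range m).filter (fun k => (2 ^ m - 1 - i).testBit k = true) =
      (Finset.range m).filter (fun k => ¬ i.testBit k = true) := by
    refine Finset.filter_congr fun k hk => ?_
    have h2 : 2 ^ m - 1 - i = 2 ^ m - (i + 1) := by omega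
    rw [h2, Nat.testBit_two_pow_sub_succ hi]
    simp [Finset.mem_range.1 hk]
  rw [h1, Finset.card_filter_add_card_filter_not, Finset.card_range]

lemma wt_pos {m i : ℕ} (hi : i < 2 ^ m) (h0 : i ≠ 0) : 0 < wt m i := by
  unfold wt
  rw [Finset.card_pos]
  by_contra hne
  rw [Finset.not_nonempty_iff_eq_empty] at hne
  apply h0
  apply Nat.eq_of_testBit_eq
  intro k
  rw [Nat.zero_testBit]
  by_cases hk : k < m
  · by_contra h
    have : k ∈ (Finset.range m).filter (fun k => i.testBit k = true) :=
      Finset.mem_filter.2 ⟨Finset.mem_range.2 hk, by simpa using h⟩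
    rw [hne] at this
    exact absurd this (Finset.notMem_empty k)
  · exact Nat.testBit_eq_false_of_lt (lt_of_lt_of_le hi (Nat.pow_le_pow_right (by norm_num)
      (not_lt.1 hk)))

section

variable {F : Type} [Field F]

lemma conv {q t : ℕ} (ht : t < q) (H : ℕ → ℕ → F) (γ : F) :
    ∑ p ∈ (Finset.range q ×ˢ Finset.range q).filter
      (fun p : ℕ × ℕ => (p.1 + p.2) % q = t), H p.1 p.2 * γ ^ p.1 =
      ∑ i ∈ Finset.range q, H i (jt q t i) * γ ^ i := by
  refine Finset.sum_bij' (fun p _ => p.1) (fun i _ => (i, jt q t i)) ?_ ?_ ?_ ?_ ?_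
  · intro p hp
    exact (Finset.mem_product.1 (Finset.mem_filter.1 hp).1).1
  · intro i hi
    have hi' := Finset.mem_range.1 hi
    refine Finset.mem_filter.2 ⟨Finset.mem_product.2 ⟨hi, Finset.mem_range.2 (jt_lt ht hi')⟩, ?_⟩
    exact (jt_iff ht hi' (jt_lt ht hi')).2 rfl
  · intro p hp
    obtain ⟨h1, h2⟩ := Finset.mem_filter.1 hp
    obtain ⟨h3, h4⟩ := Finset.mem_product.1 h1
    exact Prod.ext rfl ((jt_iff ht (Finset.mem_range.1 h3) (Finset.mem_range.1 h4)).1 h2).symm
  · intro i _
    rfl
  · intro p hp
    obtain ⟨h1, h2⟩ := Finset.mem_filter.1 hp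
    obtain ⟨h3, h4⟩ := Finset.mem_product.1 h1
    have := (jt_iff ht (Finset.mem_range.1 h3) (Finset.mem_range.1 h4)).1 h2
    rw [← this]

open Classical in
lemma core (h1 : BCH) {q : ℕ} {α : F} (h0 : α ≠ 0) (hord : orderOf α = q) (c : ℕ → F) (s N : ℕ)
    (hcard : ((Finset.range q).filter (fun i => c i ≠ 0)).card ≤ N)
    (hs : ∀ k, s ≤ k → k < s + N → ∑ i ∈ Finset.range q, c i * (α ^ i) ^ k = 0) :
    ∀ i < q, c i = 0 := by
  intro i hi
  by_contra hne
  refine hne (h1 F ((Finset.range q).filter (fun i => c i ≠ 0)) c (fun i => α ^ i) s N ?_ ?_ hcard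
    ?_ i (Finset.mem_filter.2 ⟨Finset.mem_range.2 hi, hne⟩))
  · intro a ha b hb hab
    have ha' := Finset.mem_range.1 (Finset.mem_filter.1 ha).1
    have hb' := Finset.mem_range.1 (Finset.mem_filter.1 hb).1
    refine pow_injOn_Iio_orderOf (x := α) ?_ ?_ hab
    · rw [hord]; exact ha'
    · rw [hord]; exact hb'
  · intro i _
    exact pow_ne_zero i h0
  · intro k hk hk'
    refine Eq.trans ?_ (hs k hk hk')
    refine Finset.sum_subset (Finset.filter_subset _ _) fun i hi hi' => ?_
    have : c i = 0 := by
      by_contra h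
      exact hi' (Finset.mem_filter.2 ⟨hi, h⟩)
    rw [this, zero_mul]

end

open Classical in
theorem LOW (h1 : BCH) (h2 : TCOEF) : Pool.Agent.W102.TD.LOW := by
  intro F _ _ m hm hTD hF α h0 hord H hL hcase
  obtain ⟨q, hq⟩ : ∃ q, q = 2 ^ m - 1 := ⟨_, rfl⟩
  have hq1 : 1 ≤ q := by
    have : 2 ^ 1 ≤ 2 ^ m := Nat.pow_le_pow_right (by norm_num) hm
    omega
  have hpow : 2 ^ m = 2 * 2 ^ (m - 1) := by
    obtain ⟨n, rfl⟩ : ∃ n, m = n + 1 := ⟨m - 1, by omega⟩
    rw [pow_succ, Nat.add_sub_cancel]; ring
  have hp1 : 1 ≤ 2 ^ (m - 1) := Nat.one_le_two_pow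
  -- the exponents of weight too large
  have hbig : ∀ t < q, ∀ i < q, H i (jt q t i) ≠ 0 → wt m i + wt m (jt q t i) ≤ m - 1 :=
    fun t _ i _ h => (hL _ _ h).2.2
  have hI0 : ∀ i < q, H i (jt q 0 i) ≠ 0 → i = 0 := by
    intro i hi h
    by_contra hne
    have h3 := hbig 0 (by omega) i hi h
    have h4 : jt q 0 i = 2 ^ m - 1 - i := by
      unfold jt
      rw [if_neg (by omega)]
      omega
    rw [h4, wt_compl (by omega)] at h3
    omega
  have hcardTD : ∀ t < q, t ≠ 0 → ∀ J : Finset ℕ,
      (∀ i ∈ J, i < q ∧ wt m i + wt m (jt q t i) ≤ m - 1) → J.card ≤ 2 ^ (m - 1) := by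
    intro t ht ht0 J hJ
    refine le_trans ?_ (hTD t (Nat.pos_of_ne_zero ht0) (by omega))
    rw [← Finset.card_image_of_injective J (f := fun i => (i, jt q t i))
      (fun a b h => congrArg Prod.fst h)]
    refine Finset.card_le_card fun p hp => ?_
    obtain ⟨i, hi, rfl⟩ := Finset.mem_image.1 hp
    obtain ⟨h3, h4⟩ := hJ i hi
    rw [← hq]
    exact Finset.mem_filter.2 ⟨Finset.mem_product.2 ⟨Finset.mem_range.2 h3,
      Finset.mem_range.2 (jt_lt ht h3)⟩, (jt_iff ht h3 (jt_lt ht h3)).2 rfl, h4⟩
  -- it suffices to treat the diagonals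
  suffices key : ∀ t < q, ∀ i < q, H i (jt q t i) = 0 by
    intro i j
    by_contra hne
    obtain ⟨hi, hj, -⟩ := hL i j hne
    rw [← hq] at hi hj
    have ht : (i + j) % q < q := Nat.mod_lt _ hq1
    have h3 := key _ ht i hi
    rw [← (jt_iff ht hi hj).1 rfl] at h3
    exact hne h3
  have hsum : ∀ t < q, ∀ γ : F, (∀ y : F, y ≠ 0 → ev m H (γ * y) y = 0) →
      ∑ i ∈ Finset.range q, H i (jt q t i) * γ ^ i = 0 := by
    intro t ht γ hγ
    rw [← conv ht H γ, hq]
    exact h2 F m hm hF H γ hγ t (by omega)
  rcases hcase with hc | hc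
  · -- the support
    intro t ht
    refine core h1 h0 (by rw [hord, hq]) (fun i => H i (jt q t i)) 0 (2 ^ (m - 1)) ?_ ?_
    · by_cases ht0 : t = 0
      · subst ht0
        refine le_trans (Finset.card_le_card (t := {0}) fun i hi => ?_) (by simpa using hp1)
        obtain ⟨h3, h4⟩ := Finset.mem_filter.1 hi
        exact Finset.mem_singleton.2 (hI0 i (Finset.mem_range.1 h3) h4)
      · refine hcardTD t ht ht0 _ fun i hi => ?_
        obtain ⟨h3, h4⟩ := Finset.mem_filter.1 hi
        exact ⟨Finset.mem_range.1 h3, hbig t ht i (Finset.mem_range.1 h3) h4⟩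
    · intro k _ hk
      have h3 := hsum t ht (α ^ k) (fun y hy => hc _ _ (by
        unfold f0
        rw [if_pos ⟨hy, k, by omega, rfl⟩]))
      refine Eq.trans ?_ h3
      refine Finset.sum_congr rfl fun i _ => ?_
      rw [← pow_mul, ← pow_mul, mul_comm i k]
  · -- the complement of the support
    have hrow : ∀ i < q, H i 0 = 0 := by
      refine core h1 h0 (by rw [hord, hq]) (fun i => H i 0) 0 q
        ((Finset.card_filter_le _ _).trans (by rw [Finset.card_range])) ?_
      intro k _ _
      have h3 := hc (α ^ k) 0 (by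
        unfold f0
        rw [if_neg (fun h => h.1 rfl)])
      refine Eq.trans ?_ h3
      unfold ev
      rw [← hq]
      refine Finset.sum_congr rfl fun i _ => ?_
      rw [Finset.sum_eq_single 0]
      · rw [pow_zero, mul_one, ← pow_mul, ← pow_mul, mul_comm i k]
      · intro j _ hj
        rw [zero_pow hj, mul_zero]
      · intro h
        exact absurd (Finset.mem_range.2 hq1) h
    have hcol : ∀ j < q, H 0 j = 0 := by
      refine core h1 h0 (by rw [hord, hq]) (fun j => H 0 j) 0 q
        ((Finset.card_filter_le _ _).trans (by rw [Finset.card_range])) ?_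
      intro k _ _
      have h3 := hc 0 (α ^ k) (by
        unfold f0
        rw [if_neg]
        rintro ⟨-, k', -, h⟩
        exact mul_ne_zero (pow_ne_zero _ h0) (pow_ne_zero _ h0) h.symm)
      refine Eq.trans ?_ h3
      unfold ev
      rw [← hq]
      symm
      refine (Finset.sum_eq_single 0 ?_ ?_).trans ?_
      · intro i _ hi
        refine Finset.sum_eq_zero fun j _ => ?_
        rw [zero_pow hi, mul_zero, zero_mul]
      · intro h
        exact absurd (Finset.mem_range.2 hq1) h
      · refine Finset.sum_congr rfl fun i _ => ?_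
        rw [pow_zero, mul_one, ← pow_mul, ← pow_mul, mul_comm i k]
    intro t ht
    by_cases ht0 : t = 0
    · subst ht0
      intro i hi
      by_contra hne
      have h3 := hI0 i hi hne
      subst h3
      exact hne (hcol _ (jt_lt ht hi))
    · refine core h1 h0 (by rw [hord, hq]) (fun i => H i (jt q t i)) (2 ^ (m - 1))
        (2 ^ (m - 1) - 1) ?_ ?_
      · have hj0 : jt q t 0 = t := by
          unfold jt
          rw [if_pos (Nat.zero_le _), Nat.sub_zero]
        have hjt : jt q t t = 0 := by
          unfold jt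
          rw [if_pos le_rfl, Nat.sub_self]
        have hw0 : wt m 0 = 0 := by
          unfold wt
          simp
        have hwt : wt m t ≤ m - 1 := by
          have h3 := wt_compl (m := m) (i := t) (by omega)
          have h4 := wt_pos (m := m) (i := 2 ^ m - 1 - t) (by omega) (by omega)
          omega
        set I := (Finset.range q).filter (fun i => H i (jt q t i) ≠ 0) with hI
        have h0I : 0 ∉ I := by
          rw [hI, Finset.mem_filter]
          rintro ⟨-, h⟩
          exact h (hcol _ (jt_lt ht hq1))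
        have htI : t ∉ I := by
          rw [hI, Finset.mem_filter]
          rintro ⟨-, h⟩
          rw [hjt] at h
          exact h (hrow t ht)
        have h5 : (insert 0 (insert t I)).card ≤ 2 ^ (m - 1) := by
          refine hcardTD t ht ht0 _ fun i hi => ?_
          rcases Finset.mem_insert.1 hi with rfl | hi
          · refine ⟨hq1, ?_⟩
            rw [hj0, hw0]
            omega
          rcases Finset.mem_insert.1 hi with rfl | hi
          · refine ⟨ht, ?_⟩
            rw [hjt, hw0]
            omega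
          · obtain ⟨h3, h4⟩ := Finset.mem_filter.1 hi
            exact ⟨Finset.mem_range.1 h3, hbig t ht i (Finset.mem_range.1 h3) h4⟩
        rw [Finset.card_insert_of_notMem, Finset.card_insert_of_notMem htI] at h5
        · omega
        · rw [Finset.mem_insert]
          rintro (h | h)
          · exact ht0 h.symm
          · exact h0I h
      · intro k hk hk'
        have h3 := hsum t ht (α ^ k) (fun y hy => hc _ _ (by
          unfold f0
          rw [if_neg]
          rintro ⟨-, k', hk'', h⟩
          have h4 := mul_right_cancel₀ hy h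
          have h5 : k = k' := pow_injOn_Iio_orderOf (x := α)
            (by rw [hord, Set.mem_Iio]; omega) (by rw [hord, Set.mem_Iio]; omega) h4
          omega))
        refine Eq.trans ?_ h3
        refine Finset.sum_congr rfl fun i _ => ?_
        rw [← pow_mul, ← pow_mul, mul_comm i k]

end Pool.Agent.W135.TD
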